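import Pool.Agent.X32.Uni.Chain2

/-!
# Isolated Cunningham chains of the first kind of exact length `k`, in almost primes

Let `c m n = 2 ^ m (n + 1) - 1`, the chain `n, 2 n + 1, 4 n + 3, ...` of the first kind, let `k ≥ 2`,
`i ≠ j` positions below `k`, and `R`, `L` arbitrary. There are `C`, `t` and `κ > 0` such that every interval `(A, B]`,
`B ≤ X`, `B - A ≥ θ X`, contains at least `κ (B - A) / (log X) ^ k` integers `n` such that
* `c i n` is prime, `c j n` is a product of at most two primes `> X ^ (1 / 9)`, and all `c l n`, `l < k`, are products of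
  at most `t` primes `> X ^ (1 / t)`;
* the chain stops: all terms `c m n`, `k ≤ m ≤ R`, have a prime factor `≤ C`;
* the chain is isolated: every integer `v ≠ c l n` at a distance of at most `L` from a term `c l n`, `l < k`, has a
  prime factor `≤ C`.
For every colouring with `r` colours almost all these `n` (all but `δ (B - A) / (log X) ^ k`) are covered by pairwise
disjoint monochromatic arithmetic progressions of `s` such `n`, with differences `≤ (log X) ^ c`.
-/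

set_option autoImplicit false

namespace Pool.Agent.Results.MP_77cbc6_nt.IsolatedExactChains

open Finset

variable {k : ℕ}

/-- the term number `m` of the chain -/
def c (m n : ℕ) : ℕ := 2 ^ m * (n + 1) - 1

/-- `v > 1` is a product of at most `r` primes, all of them larger than `y` -/
def Almost (r : ℕ) (y : ℝ) (v : ℕ) : Prop :=
  1 < v ∧ v.primeFactorsList.length ≤ r ∧ ∀ q : ℕ, q.Prime → q ∣ v → y < q

open Classical in
/-- the integers `n` of `(A, B]` described above -/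
noncomputable def Good (i j : Fin k) (R L C t X A B : ℕ) : Finset ℕ :=
  (Ioc A B).filter (fun n : ℕ => (c i n).Prime ∧ Almost 2 ((X : ℝ) ^ (1 / 9 : ℝ)) (c j n) ∧
    (∀ l : Fin k, Almost t ((X : ℝ) ^ (1 / (t : ℝ))) (c l n)) ∧
    (∀ m ≤ R, k ≤ m → ∃ q : ℕ, q.Prime ∧ q ≤ C ∧ q ∣ c m n) ∧
    ∀ (l : Fin k) (v : ℤ), v ≠ c l n → |v - c l n| ≤ L → ∃ q : ℕ, q.Prime ∧ q ≤ C ∧ (q : ℤ) ∣ v)

/-- the terms `a, a + b, ..., a + (s - 1) b` of the progression `z = (a, b)` -/
def terms (s : ℕ) (z : ℕ × ℕ) : Finset ℕ := (range s).image (fun i => z.1 + i * z.2)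

theorem almost_iff (r : ℕ) (y : ℝ) (v : ℕ) : Pool.Agent.X32.Uni.Almost r y (v : ℤ) ↔ Almost r y v := by
  unfold Pool.Agent.X32.Uni.Almost Almost
  rw [Nat.abs_cast, Int.natAbs_natCast]
  constructor
  · rintro ⟨h1, h2, h3⟩
    exact ⟨by exact_mod_cast h1, h2, fun q hq hd => h3 q hq (Int.natCast_dvd_natCast.2 hd)⟩
  · rintro ⟨h1, h2, h3⟩
    exact ⟨by exact_mod_cast h1, h2, fun q hq hd => h3 q hq (Int.natCast_dvd_natCast.1 hd)⟩

theorem c_cast (m : ℕ) {n : ℕ} (_ : 1 ≤ n) : (2 : ℤ) ^ m * ((n : ℤ) + 1) - 1 = (c m n : ℤ) := by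
  unfold c
  have h1 : 1 ≤ 2 ^ m * (n + 1) := Nat.one_le_iff_ne_zero.2 (by positivity)
  rw [Nat.cast_sub h1]
  push_cast
  ring

theorem result (i j : Fin k) (hij : i ≠ j) (R L : ℕ) :
    ∃ C t : ℕ, 1 ≤ t ∧ ∃ κ : ℝ, 0 < κ ∧ ∀ (s r : ℕ) (θ δ : ℝ), 1 ≤ s → 0 < θ → 0 < δ → ∃ c X₀ : ℕ,
      ∀ X : ℕ, X₀ ≤ X → ∀ A B : ℕ, B ≤ X → θ * X ≤ (B : ℝ) - A →
        κ * ((B : ℝ) - A) / Real.log X ^ k ≤ ((Good i j R L C t X A B).card : ℝ) ∧
        ∀ χ : ℕ → Fin r, ∃ P : Finset (ℕ × ℕ),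
          (∀ z ∈ P, 1 ≤ z.2 ∧ (z.2 : ℝ) ≤ Real.log X ^ c ∧
            ∀ m < s, z.1 + m * z.2 ∈ Good i j R L C t X A B ∧ χ (z.1 + m * z.2) = χ z.1) ∧
          (P : Set (ℕ × ℕ)).PairwiseDisjoint (terms s) ∧
          (((Good i j R L C t X A B \ P.biUnion (terms s)).card : ℕ) : ℝ) ≤ δ * ((B : ℝ) - A) / Real.log X ^ k := by
  classical
  obtain ⟨C, t, ht, κ, hκ, H⟩ := Pool.Agent.X32.Uni.chainQ 1 (Or.inl rfl) i j hij R L
  have hgood : ∀ X A B : ℕ, Pool.Agent.X32.Uni.GQ 1 i j R L C t X A B = Good i j R L C t X A B := by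
    intro X A B
    ext n
    unfold Pool.Agent.X32.Uni.GQ Good
    rw [mem_filter, mem_filter]
    refine and_congr_right (fun hn => ?_)
    rw [mem_Ioc] at hn
    have hn1 : 1 ≤ n := by omega
    simp only [c_cast _ hn1, Int.natAbs_natCast, almost_iff, Int.natCast_dvd_natCast]
    refine and_congr_right (fun _ => and_congr_right (fun _ => and_congr_right (fun _ => and_congr_right (fun _ => ?_))))
    constructor
    · intro h l v h1 h2
      obtain ⟨q, q1, q2, q3⟩ := h l (v - c l n) (sub_ne_zero.2 h1) h2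
      refine ⟨q, q1, q2, ?_⟩
      rwa [add_sub_cancel] at q3
    · intro h l v h1 h2
      exact h l (c l n + v) (by simpa using h1) (by simpa using h2)
  refine ⟨C, t, ht, κ, hκ, fun s r θ δ hs hθ hδ => ?_⟩
  obtain ⟨c, X₀, h⟩ := H s r θ δ hs hθ hδ
  refine ⟨c, X₀, fun X hX A B hB hAB => ?_⟩
  have h1 := h X hX A B hB hAB
  rw [hgood] at h1
  exact h1

end Pool.Agent.Results.MP_77cbc6_nt.IsolatedExactChains
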