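import Pool.Agent.X37.RW.Iso

/-!
# Patterns of complete chains of length one in Cunningham orbits of the first kind

`c_j(p) = 2 ^ j * (p + 1) - 1`. Let `k ≥ 1` and `ε > 0`. For all `R` and all sets `V` of at least
`n₀(k, ε)` times, any two more than `R` apart, at least the proportion `1 / C(8 k ^ 2, k) - ε` of the
`(k + 1)`-element subsets `T` of `V` have the following property: for infinitely many primes `p` the
numbers `c_j(p)`, `0 ≤ j ≤ max T - min T + R`, are prime exactly for the `j` with `min T + j ∈ T`, and `p`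
is none of `c_1(q), ..., c_R(q)` for any prime `q`. For `R ≥ 1` each of these `k + 1` primes is a
complete Cunningham chain of the first kind of exact length one.
-/

set_option autoImplicit false

namespace Pool.Agent.Results.MP_77cbc6_nt.IsolatedPatterns

open Finset Pool.Agent.X37.RW

/-- `c_j(p)`, the `j`-th iterate of `x ↦ 2 x + 1` at `p` -/
def c (p j : ℕ) : ℕ := 2 ^ j * (p + 1) - 1

/-- with `m = min T`: for infinitely many primes `p` the number `c_j(p)` is prime if and only if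
`m + j ∈ T`, for all `j` with `m + j ≤ max T + R`, and `p ≠ c_l(q)` for all primes `q`, `1 ≤ l ≤ R` -/
def Realised (R : ℕ) (T : Finset ℕ) : Prop :=
  {p : ℕ | p.Prime ∧ (∃ m ∈ T, (∀ t ∈ T, m ≤ t) ∧
    ∀ j, (∃ t ∈ T, m + j ≤ t + R) → ((c p j).Prime ↔ m + j ∈ T)) ∧
    ∀ l, 1 ≤ l → l ≤ R → ∀ q : ℕ, q.Prime → c q l ≠ p}.Infinite

theorem of_real {R : ℕ} {T : Finset ℕ} (hT : T.Nonempty)
    (h : RealI (fun i => 2 ^ i) (fun i => 2 ^ i - 1) R T) : Realised R T := by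
  have e : ∀ i n : ℕ, 2 ^ i * n + (2 ^ i - 1) = 2 ^ i * (n + 1) - 1 := by
    intro i n
    have h1 : 1 ≤ 2 ^ i := Nat.one_le_two_pow
    rw [Nat.mul_add, Nat.mul_one]
    omega
  have e2 : ∀ m j n : ℕ, c (2 ^ m * (n + 1) - 1) j = 2 ^ (m + j) * (n + 1) - 1 := by
    intro m j n
    unfold c
    have h1 : 1 ≤ 2 ^ m * (n + 1) := Nat.mul_pos (by positivity) (by omega)
    rw [Nat.sub_add_cancel h1, pow_add]
    congr 1
    ring
  set m := T.min' hT with hm
  have hmT : m ∈ T := T.min'_mem hT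
  have hmin : ∀ t ∈ T, m ≤ t := fun t ht => T.min'_le t ht
  have hinj : Set.InjOn (fun n : ℕ => 2 ^ (m + R) * (n + 1) - 1)
      {n : ℕ | ∀ i, (∃ t ∈ T, t ≤ i) → (∃ t ∈ T, i ≤ t + 2 * R) →
        (((fun i => 2 ^ i) i * n + (fun i => 2 ^ i - 1) i).Prime ↔ ∃ t ∈ T, i = t + R)} := by
    intro a _ b _ hab
    simp only at hab
    have h1 : 1 ≤ 2 ^ (m + R) * (a + 1) := Nat.mul_pos (by positivity) (by omega)
    have h2 : 1 ≤ 2 ^ (m + R) * (b + 1) := Nat.mul_pos (by positivity) (by omega)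
    have h3 : 2 ^ (m + R) * (a + 1) = 2 ^ (m + R) * (b + 1) := by omega
    have := Nat.eq_of_mul_eq_mul_left (by positivity) h3
    omega
  refine (h.image hinj).mono ?_
  rintro _ ⟨n, hn, rfl⟩
  have hn' : ∀ i, (∃ t ∈ T, t ≤ i) → (∃ t ∈ T, i ≤ t + 2 * R) →
      ((2 ^ i * (n + 1) - 1).Prime ↔ ∃ t ∈ T, i = t + R) := by
    intro i h1 h2
    rw [← e]
    exact hn i h1 h2
  refine ⟨(hn' (m + R) ⟨m, hmT, by omega⟩ ⟨m, hmT, by omega⟩).2 ⟨m, hmT, rfl⟩,
    ⟨m, hmT, hmin, ?_⟩, ?_⟩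
  · rintro j ⟨t, ht, htj⟩
    simp only
    rw [e2, hn' (m + R + j) ⟨m, hmT, by omega⟩ ⟨t, ht, by omega⟩]
    constructor
    · rintro ⟨u, hu, hue⟩
      have : m + j = u := by omega
      rw [this]
      exact hu
    · intro hmem
      exact ⟨m + j, hmem, by omega⟩
  · intro l hl1 hl2 q hq hqe
    unfold c at hqe
    have h1 : 1 ≤ 2 ^ l * (q + 1) := Nat.mul_pos (by positivity) (by omega)
    have h2 : 1 ≤ 2 ^ (m + R) * (n + 1) := Nat.mul_pos (by positivity) (by omega)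
    have h5 : 2 ^ (m + R) * (n + 1) = 2 ^ l * (2 ^ (m + R - l) * (n + 1)) := by
      rw [← mul_assoc, ← pow_add]
      congr 2
      omega
    have h6 : q + 1 = 2 ^ (m + R - l) * (n + 1) := by
      have h7 : 2 ^ l * (q + 1) = 2 ^ l * (2 ^ (m + R - l) * (n + 1)) := by
        rw [← h5]
        simp only at hqe
        omega
      exact Nat.eq_of_mul_eq_mul_left (by positivity) h7
    have h8 : q = 2 ^ (m + R - l) * (n + 1) - 1 := by omega
    rw [h8] at hq
    obtain ⟨t, ht, hte⟩ := (hn' (m + R - l) ⟨m, hmT, by omega⟩ ⟨m, hmT, by omega⟩).1 hq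
    have := hmin t ht
    omega

open Classical in
theorem result (k : ℕ) (hk : 1 ≤ k) (ε : ℝ) (hε : 0 < ε) : ∃ n₀ : ℕ, ∀ (R : ℕ) (V : Finset ℕ),
    (∀ u ∈ V, ∀ v ∈ V, u < v → u + R < v) → n₀ ≤ V.card →
    (1 / ((8 * k ^ 2).choose k : ℝ) - ε) * (V.card.choose (k + 1) : ℝ) ≤
      (((V.powersetCard (k + 1)).filter (Realised R)).card : ℝ) := by
  obtain ⟨n₀, h⟩ := iso_subsets k hk ε hε
  refine ⟨n₀, fun R V hV hc =>
    (h _ _ fam_first R V hV hc).trans (Nat.cast_le.2 (card_le_card ?_))⟩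
  intro T hT
  rw [mem_filter] at hT ⊢
  have hTc := mem_powersetCard.1 hT.1
  refine ⟨hT.1, of_real ?_ hT.2⟩
  rw [← card_pos, hTc.2]
  omega

end Pool.Agent.Results.MP_77cbc6_nt.IsolatedPatterns
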